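import Pool.Agent.H822Z.Hom.Main

set_option autoImplicit false

open scoped Manifold ContDiff
open Pool.Agent.H822Z.Hom

/-- A compact connected weakly symmetric Riemannian four manifold with a finite group of isometries
acting freely, all of constant displacement, whose quotient is not homogeneous. -/
theorem Pool.Agent.Results.MP_590cbb_gt.AWeaklySymmetricFails.result :
    ∃ (E H M : Type) (_ : NormedAddCommGroup E) (_ : NormedSpace ℝ E)
      (_ : TopologicalSpace H) (I : ModelWithCorners ℝ E H) (_ : TopologicalSpace M)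
      (_ : ChartedSpace H M) (_ : IsManifold I ∞ M) (g : M → E → E → ℝ)
      (Γ : Subgroup (Equiv.Perm M)),
      Module.finrank ℝ E = 4 ∧ I.Boundaryless ∧ T2Space M ∧ CompactSpace M ∧ ConnectedSpace M ∧
        IsRiemannian I g ∧ WeaklySymmetric I g ∧ (∀ γ ∈ Γ, IsIsom I g γ) ∧ Finite Γ ∧
        (∀ γ ∈ Γ, ∀ x : M, γ x = x → γ = 1) ∧
        (∀ γ ∈ Γ, ∃ c : ℝ, ∀ x : M, rdist I g x (γ x) = ENNReal.ofReal c) ∧
        ¬ QuotHomogeneous I g Γ :=
  main
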